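import Pool.Agent.N760.IT.C
import Pool.Agent.N578.TG.Unif

set_option autoImplicit false

/-!
Uniform form of the tool of helper760 on almost all orbits of Euler's function and sets with a power saving: the thresholds and the
function `K(m)` depend only on the constant and the exponent in the bound for the set.
-/

namespace Pool.Agent.N407.OU

open Finset Filter
open Pool.Agent.N733.TG (LM Expanding NearG)
open Pool.Agent.N760.IT (orb densW Few)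

theorem fixed_j {f : ℕ → ℕ} (hf : LM f) {θ : ℝ} (hθ0 : 0 ≤ θ) (hθ1 : θ < 1) (C₀ : ℝ) (j : ℕ) {ε : ℝ} (hε : 0 < ε) :
    ∃ N₀ : ℕ, ∀ W : Set ℕ, Few C₀ θ W → ∀ N : ℕ, N₀ ≤ N →
      ({m : ℕ | 1 ≤ m ∧ m ≤ N ∧ ∃ k ≤ j, orb f k m ∈ W}.ncard : ℝ) ≤ ε * N := by
  classical
  choose A hA using fun k : ℕ => densW hf hθ0 hθ1 C₀ k (ε / ((j : ℝ) + 1)) (by positivity)
  refine ⟨(range (j + 1)).sup A, fun W hW N hN => ?_⟩
  have hsub : {m : ℕ | 1 ≤ m ∧ m ≤ N ∧ ∃ k ≤ j, orb f k m ∈ W} ⊆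
      ↑((range (j + 1)).biUnion (fun k => (Icc 1 N).filter (fun m => f (Nat.totient^[k] m) ∈ W))) := by
    rintro m ⟨h1, h2, k, h3, h4⟩
    rw [mem_coe, mem_biUnion]
    exact ⟨k, mem_range.2 (by omega), mem_filter.2 ⟨mem_Icc.2 ⟨h1, h2⟩, h4⟩⟩
  have h3 : ({m : ℕ | 1 ≤ m ∧ m ≤ N ∧ ∃ k ≤ j, orb f k m ∈ W}.ncard : ℝ) ≤
      ∑ k ∈ range (j + 1), (((Icc 1 N).filter (fun m => f (Nat.totient^[k] m) ∈ W)).card : ℝ) := by
    have e1 := Set.ncard_le_ncard hsub (Finset.finite_toSet _)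
    rw [Set.ncard_coe_finset] at e1
    exact_mod_cast e1.trans card_biUnion_le
  refine h3.trans ?_
  calc ∑ k ∈ range (j + 1), (((Icc 1 N).filter (fun m => f (Nat.totient^[k] m) ∈ W)).card : ℝ)
      ≤ ∑ _k ∈ range (j + 1), ε / ((j : ℝ) + 1) * N :=
        sum_le_sum (fun k hk => le_trans (le_of_eq (by congr!)) (hA k N ((Finset.le_sup hk).trans hN) W hW))
    _ = ε * N := by
        rw [sum_const, card_range, nsmul_eq_mul]
        push_cast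
        field_simp

/-- **Uniform tool.** For all sets `S` with at most `C X ^ s` elements of height at most `X` at once: there is `K(m)` tending to
infinity such that for `N ≥ N₀(ε)`, for all `m ≤ N` but `ε N`, for all `k ≤ K(m)`, no element of `S` has a height within `v ^ κ`
of `G v`, `v = f(φ_k(m))`; here `d s + κ < 1`, and `K` and `N₀` do not depend on `S`. -/
theorem orbit_unif {T : Type*} {f : ℕ → ℕ} (hf : LM f) {G : ℕ → ℝ} {d : ℝ} (hG : Expanding G d) {s κ : ℝ} (hs : 0 ≤ s)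
    (hκ : 0 ≤ κ) (h1 : d * s + κ < 1) (C : ℝ) :
    ∃ K : ℕ → ℕ, Tendsto K atTop atTop ∧ ∀ ε : ℝ, 0 < ε → ∃ N₀ : ℕ, ∀ (S : Set T) (h : T → ℝ),
      (∀ X : ℝ, 1 ≤ X → {t | t ∈ S ∧ h t ≤ X}.Finite ∧ ({t | t ∈ S ∧ h t ≤ X}.ncard : ℝ) ≤ C * X ^ s) →
      ∀ N : ℕ, N₀ ≤ N →
      ({m : ℕ | 1 ≤ m ∧ m ≤ N ∧ ∃ k ≤ K m, ∃ t ∈ S, |h t - G (orb f k m)| ≤ (orb f k m : ℝ) ^ κ}.ncard : ℝ) ≤ ε * N := by
  classical
  have hd := hG.one_le
  have h0 : 0 ≤ d * s := mul_nonneg (by linarith) hs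
  obtain ⟨C₀, hC₀⟩ := Pool.Agent.N578.TG.nearG_count_unif (T := T) hG hs hκ (by linarith) C
  choose A hA using fun j : ℕ => fixed_j hf (θ := d * s + κ) (by positivity) h1 C₀ j (ε := 1 / ((j : ℝ) + 1)) (by positivity)
  obtain ⟨K, hK⟩ : ∃ K : ℕ → ℕ, K = fun m => Nat.findGreatest (fun j => A j ≤ m) m := ⟨_, rfl⟩
  have hKmono : Monotone K := by
    intro m n hmn
    rw [hK]
    exact Nat.findGreatest_mono (fun j hj => le_trans hj hmn) hmn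
  have hKge : ∀ j : ℕ, ∀ m, max (A j) j ≤ m → j ≤ K m := by
    intro j m hm
    rw [hK]
    exact Nat.le_findGreatest (le_trans (le_max_right _ _) hm) (le_trans (le_max_left _ _) hm)
  refine ⟨K, tendsto_atTop_atTop.2 (fun j => ⟨max (A j) j, fun m hm => hKge j m hm⟩), fun ε hε => ?_⟩
  obtain ⟨j, hj⟩ := exists_nat_gt (1 / ε)
  refine ⟨max (A (j + 1)) (j + 1), fun S h hS N hN => ?_⟩
  have b1 : j + 1 ≤ K N := hKge (j + 1) N hN
  have b2 : A (K N) ≤ N := by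
    have h3 : K N ≠ 0 := by omega
    rw [hK] at h3 ⊢
    exact Nat.findGreatest_of_ne_zero (P := fun j => A j ≤ N) (n := N) rfl h3
  have h4 := hA (K N) (NearG S h G κ) (fun X hX => le_trans (le_of_eq (by congr!)) (hC₀ S h hS X hX)) N b2
  have hsub : {m : ℕ | 1 ≤ m ∧ m ≤ N ∧ ∃ k ≤ K m, ∃ t ∈ S, |h t - G (orb f k m)| ≤ (orb f k m : ℝ) ^ κ} ⊆
      {m : ℕ | 1 ≤ m ∧ m ≤ N ∧ ∃ k ≤ K N, orb f k m ∈ NearG S h G κ} := by
    rintro m ⟨g1, g2, k, g3, t, g4, g5⟩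
    exact ⟨g1, g2, k, g3.trans (hKmono g2), t, g4, g5⟩
  have h5 := Set.ncard_le_ncard hsub ((Set.finite_Icc 1 N).subset (fun m hm => ⟨hm.1, hm.2.1⟩))
  have h6 : 1 / (((K N : ℕ) : ℝ) + 1) ≤ ε := by
    rw [div_le_iff₀ (by positivity)]
    rw [div_lt_iff₀ hε] at hj
    have : (j : ℝ) + 1 ≤ ((K N : ℕ) : ℝ) := by exact_mod_cast b1
    nlinarith
  calc (({m : ℕ | 1 ≤ m ∧ m ≤ N ∧ ∃ k ≤ K m, ∃ t ∈ S, |h t - G (orb f k m)| ≤ (orb f k m : ℝ) ^ κ}.ncard : ℕ) : ℝ)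
      ≤ (({m : ℕ | 1 ≤ m ∧ m ≤ N ∧ ∃ k ≤ K N, orb f k m ∈ NearG S h G κ}.ncard : ℕ) : ℝ) := by exact_mod_cast h5
    _ ≤ 1 / (((K N : ℕ) : ℝ) + 1) * N := h4
    _ ≤ ε * N := mul_le_mul_of_nonneg_right h6 (Nat.cast_nonneg _)

end Pool.Agent.N407.OU
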